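import Mathlib

/-!
# Gaussian measures with covariance matrix of rank `d`
-/

set_option autoImplicit false
open MeasureTheory ProbabilityTheory Matrix Complex
open scoped RealInnerProductSpace

namespace Pool.Agent.Y284.EWL

/-- `N(b, S)` with `S` positive semidefinite of rank `d` is the law of `A Z + b`, `Z` standard
Gaussian in `ℝ^d`, `A` linear and injective. -/
theorem exists_affine {m d : ℕ} (b : EuclideanSpace ℝ (Fin m)) (S : Matrix (Fin m) (Fin m) ℝ)
    (hS : S.PosSemidef) (hd : S.rank = d) :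
    ∃ A : EuclideanSpace ℝ (Fin d) →L[ℝ] EuclideanSpace ℝ (Fin m),
      (∀ l : ℝ, (∀ i, hS.1.eigenvalues i ≠ 0 → l ≤ hS.1.eigenvalues i) →
        ∀ x, l * ‖x‖ ^ 2 ≤ ‖A x‖ ^ 2) ∧
      (∀ l : ℝ, (∀ i, hS.1.eigenvalues i ≤ l) → ∀ x, ‖A x‖ ^ 2 ≤ l * ‖x‖ ^ 2) ∧
      multivariateGaussian b S =
        (stdGaussian (EuclideanSpace ℝ (Fin d))).map (fun x => A x + b) := by
  classical
  have hH := hS.1
  have hcard : Fintype.card {i // hH.eigenvalues i ≠ 0} = d := by
    rw [← hd, hH.rank_eq_card_non_zero_eigs]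
  let e : Fin d ≃ {i // hH.eigenvalues i ≠ 0} := (Fintype.equivFinOfCardEq hcard).symm
  set lam : Fin d → ℝ := fun j => hH.eigenvalues (e j) with hlam
  set v : Fin d → EuclideanSpace ℝ (Fin m) := fun j => hH.eigenvectorBasis (e j) with hv
  have hlam0 : ∀ j, 0 < lam j := fun j =>
    lt_of_le_of_ne (hS.eigenvalues_nonneg _) (Ne.symm (e j).2)
  have hvv : ∀ i j, ⟪v i, v j⟫ = if i = j then (1 : ℝ) else 0 := by
    intro i j
    have h1 := (orthonormal_iff_ite.1 hH.eigenvectorBasis.orthonormal) (e i) (e j)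
    rw [hv]
    simp only
    rw [h1]
    by_cases hij : i = j
    · subst hij; simp
    · rw [if_neg hij, if_neg]
      intro h
      exact hij (e.injective (Subtype.ext h))
  set A : EuclideanSpace ℝ (Fin d) →L[ℝ] EuclideanSpace ℝ (Fin m) :=
    ∑ j, Real.sqrt (lam j) • (EuclideanSpace.proj j : EuclideanSpace ℝ (Fin d) →L[ℝ] ℝ).smulRight
      (v j) with hA
  have hAx : ∀ x, A x = ∑ j, (Real.sqrt (lam j) * x j) • v j := by
    intro x
    rw [hA, ContinuousLinearMap.sum_apply]
    refine Finset.sum_congr rfl fun j _ => ?_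
    simp [smul_smul]
  have hin : ∀ x k, ⟪v k, A x⟫ = Real.sqrt (lam k) * x k := by
    intro x k
    rw [hAx, inner_sum, Finset.sum_eq_single k]
    · rw [real_inner_smul_right, hvv, if_pos rfl, mul_one]
    · intro j _ hjk
      rw [real_inner_smul_right, hvv, if_neg (Ne.symm hjk), mul_zero]
    · simp
  have hsq : ∀ x, ‖A x‖ ^ 2 = ∑ j, lam j * x j ^ 2 := by
    intro x
    rw [← real_inner_self_eq_norm_sq]
    nth_rewrite 1 [hAx]
    rw [sum_inner]
    refine Finset.sum_congr rfl fun j _ => ?_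
    rw [real_inner_smul_left, hin]
    have := Real.mul_self_sqrt (hlam0 j).le
    linear_combination (x j ^ 2) * this
  refine ⟨A, ?_, ?_, ?_⟩
  · intro l hl x
    rw [hsq, EuclideanSpace.real_norm_sq_eq, Finset.mul_sum]
    refine Finset.sum_le_sum fun j _ => ?_
    have := hl (e j) (e j).2
    gcongr
  · intro l hl x
    rw [hsq, EuclideanSpace.real_norm_sq_eq, Finset.mul_sum]
    refine Finset.sum_le_sum fun j _ => ?_
    have := hl (e j)
    gcongr
  · -- the quadratic form
    have hquad : ∀ t : EuclideanSpace ℝ (Fin m), ‖A.adjoint t‖ ^ 2 = t ⬝ᵥ S *ᵥ t := by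
      intro t
      have h1 : ∀ j, (A.adjoint t) j = Real.sqrt (lam j) * ⟪v j, t⟫ := by
        intro j
        have h2 : (A.adjoint t) j = ⟪EuclideanSpace.single j (1 : ℝ), A.adjoint t⟫ := by
          rw [EuclideanSpace.inner_single_left]; simp
        rw [h2, ContinuousLinearMap.adjoint_inner_right, hAx, sum_inner, Finset.sum_eq_single j]
        · rw [real_inner_smul_left]; simp
        · intro i _ hij
          rw [real_inner_smul_left]
          simp [hij]
        · simp
      have h3 : ‖A.adjoint t‖ ^ 2 = ∑ j, lam j * ⟪v j, t⟫ ^ 2 := by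
        rw [EuclideanSpace.real_norm_sq_eq]
        refine Finset.sum_congr rfl fun j _ => ?_
        rw [h1, mul_pow, Real.sq_sqrt (hlam0 j).le]
      have h4 : ∑ j, lam j * ⟪v j, t⟫ ^ 2 =
          ∑ i, hH.eigenvalues i * ⟪hH.eigenvectorBasis i, t⟫ ^ 2 := by
        have h5 : ∑ j, lam j * ⟪v j, t⟫ ^ 2 = ∑ i : {i // hH.eigenvalues i ≠ 0},
            hH.eigenvalues i * ⟪hH.eigenvectorBasis i, t⟫ ^ 2 :=
          Equiv.sum_comp e fun i => hH.eigenvalues i * ⟪hH.eigenvectorBasis i, t⟫ ^ 2
        rw [h5]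
        have h9 := Fintype.sum_subtype_add_sum_subtype (fun i => hH.eigenvalues i ≠ 0)
          (fun i => hH.eigenvalues i * ⟪hH.eigenvectorBasis i, t⟫ ^ 2)
        have h10 : ∑ i : {i // ¬ hH.eigenvalues i ≠ 0},
            hH.eigenvalues i * ⟪hH.eigenvectorBasis i, t⟫ ^ 2 = 0 := by
          refine Finset.sum_eq_zero fun i _ => ?_
          rw [not_not.1 i.2, zero_mul]
        rw [h10, add_zero] at h9
        exact h9
      rw [h3, h4]
      have hself : ∀ i, ⟪hH.eigenvectorBasis i, toEuclideanCLM (𝕜 := ℝ) S t⟫ =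
          hH.eigenvalues i * ⟪hH.eigenvectorBasis i, t⟫ := by
        intro i
        have h6 : IsSelfAdjoint (toEuclideanCLM (𝕜 := ℝ) (n := Fin m) S) :=
          (show IsSelfAdjoint S from hH).map _
        have h7 : toEuclideanCLM (𝕜 := ℝ) S (hH.eigenvectorBasis i) =
            hH.eigenvalues i • hH.eigenvectorBasis i := by
          ext k
          have := congrFun (hH.mulVec_eigenvectorBasis i) k
          simpa using this
        calc ⟪hH.eigenvectorBasis i, toEuclideanCLM (𝕜 := ℝ) S t⟫
            = ⟪(toEuclideanCLM (𝕜 := ℝ) S).adjoint (hH.eigenvectorBasis i), t⟫ := by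
              rw [ContinuousLinearMap.adjoint_inner_left]
          _ = ⟪toEuclideanCLM (𝕜 := ℝ) S (hH.eigenvectorBasis i), t⟫ := by
              rw [h6.adjoint_eq]
          _ = _ := by rw [h7, real_inner_smul_left]
      have h8 := OrthonormalBasis.sum_inner_mul_inner hH.eigenvectorBasis t
        (toEuclideanCLM (𝕜 := ℝ) S t)
      rw [← inner_toEuclideanCLM, ← h8]
      refine Finset.sum_congr rfl fun i _ => ?_
      rw [hself, real_inner_comm]
      ring
    refine Measure.ext_of_charFun ?_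
    ext t
    rw [charFun_multivariateGaussian hS]
    have h6 : charFun ((stdGaussian (EuclideanSpace ℝ (Fin d))).map (fun x => A x + b)) t =
        exp ((⟪b, t⟫ : ℝ) * I) * charFun (stdGaussian (EuclideanSpace ℝ (Fin d))) (A.adjoint t) := by
      rw [charFun_apply, charFun_apply, integral_map (by fun_prop) (by fun_prop),
        ← integral_const_mul]
      refine integral_congr_ae (Filter.Eventually.of_forall fun x => ?_)
      simp only
      rw [← exp_add, inner_add_left, ContinuousLinearMap.adjoint_inner_right]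
      congr 1
      push_cast
      ring
    rw [h6, charFun_stdGaussian, ← exp_add]
    have h7 : ((‖A.adjoint t‖ : ℝ) : ℂ) ^ 2 = ((t ⬝ᵥ S *ᵥ t : ℝ) : ℂ) := by
      rw [← hquad t]; push_cast; rfl
    rw [h7, real_inner_comm]
    congr 1
    ring

end Pool.Agent.Y284.EWL
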