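import Pool.Agent.Helper764.EWUpper

/-!
# Transport costs of empirical measures under Lipschitz maps
-/

set_option autoImplicit false
open MeasureTheory Filter Topology Set
open scoped ENNReal NNReal
open Pool.Agent.Helper764.EW

namespace Pool.Agent.Y284.EWL

/-- `E W_p^p(ν_n, ν)` for `n` independent points with law `ν` in `ℝ^m`. -/
noncomputable def expCost {m : ℕ} (p : ℝ) (ν : Measure (E m)) (n : ℕ) : ℝ≥0∞ :=
  ∫⁻ x, Wpp p (emp x) ν ∂(Measure.pi fun _ : Fin n => ν)

/-- `T` is Lipschitz with constant `K`. -/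
def Lip {d m : ℕ} (K : ℝ) (T : E d → E m) : Prop := ∀ x y, ‖T x - T y‖ ≤ K * ‖x - y‖

theorem Lip.lipschitz {d m : ℕ} {K : ℝ} {T : E d → E m} (hT : Lip K T) (hK : 0 ≤ K) :
    LipschitzWith ⟨K, hK⟩ T :=
  LipschitzWith.of_dist_le_mul fun x y => by
    rw [dist_eq_norm, dist_eq_norm]; exact hT x y

theorem Lip.measurable {d m : ℕ} {K : ℝ} {T : E d → E m} (hT : Lip K T) (hK : 0 ≤ K) :
    Measurable T := (hT.lipschitz hK).continuous.measurable

/-- The transport cost under a Lipschitz map. -/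
theorem Wpp_map_le {d m : ℕ} {K p : ℝ} (hK : 0 < K) (hp : 0 ≤ p) {T : E d → E m} (hT : Lip K T)
    (μ ν : Measure (E d)) :
    Wpp p (μ.map T) (ν.map T) ≤ ENNReal.ofReal (K ^ p) * Wpp p μ ν := by
  have hTm := hT.measurable hK.le
  have h0 : ENNReal.ofReal (K ^ p) ≠ 0 := by
    rw [Ne, ENNReal.ofReal_eq_zero, not_le]; exact Real.rpow_pos_of_pos hK p
  have h1 : ENNReal.ofReal (K ^ p) ≠ ⊤ := ENNReal.ofReal_ne_top
  unfold Wpp
  rw [ENNReal.mul_iInf_of_ne h0 h1]
  refine le_iInf fun π => ?_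
  rw [ENNReal.mul_iInf_of_ne h0 h1]
  refine le_iInf fun hπ => ?_
  have hTT : Measurable (Prod.map T T) := hTm.prodMap hTm
  refine iInf₂_le_of_le (π.map (Prod.map T T)) ⟨?_, ?_⟩ ?_
  · rw [Measure.map_map measurable_fst hTT, ← hπ.1, Measure.map_map hTm measurable_fst]
    rfl
  · rw [Measure.map_map measurable_snd hTT, ← hπ.2, Measure.map_map hTm measurable_snd]
    rfl
  · have hm : Measurable fun z : E m × E m => ENNReal.ofReal (‖z.1 - z.2‖ ^ p) := by fun_prop
    rw [lintegral_map hm hTT, ← lintegral_const_mul' _ _ h1]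
    refine lintegral_mono fun z => ?_
    show ENNReal.ofReal (‖T z.1 - T z.2‖ ^ p) ≤ _
    rw [← ENNReal.ofReal_mul (Real.rpow_nonneg hK.le p)]
    refine ENNReal.ofReal_le_ofReal ?_
    rw [← Real.mul_rpow hK.le (norm_nonneg _)]
    exact Real.rpow_le_rpow (norm_nonneg _) (hT _ _) hp

theorem emp_map {d m : ℕ} {T : E d → E m} (hT : Measurable T) {n : ℕ} (x : Fin n → E d) :
    (emp x).map T = emp fun i => T (x i) := by
  unfold emp
  rw [Measure.map_smul]
  congr 1
  ext s hs
  rw [Measure.map_apply hT hs, Measure.finset_sum_apply, Measure.finset_sum_apply]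
  refine Finset.sum_congr rfl fun i _ => ?_
  rw [Measure.dirac_apply' _ (hT hs), Measure.dirac_apply' _ hs]
  rfl

/-- The expected cost of the image under a Lipschitz map. -/
theorem expCost_map_le {d m : ℕ} {K p : ℝ} (hK : 0 < K) (hp : 1 ≤ p) {T : E d → E m}
    (hT : Lip K T) (ν : Measure (E d)) [IsProbabilityMeasure ν] (n : ℕ) :
    expCost p (ν.map T) n ≤ ENNReal.ofReal (K ^ p) * expCost p ν n := by
  have hTm := hT.measurable hK.le
  have hprob : IsProbabilityMeasure (ν.map T) := Measure.isProbabilityMeasure_map hTm.aemeasurable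
  have hpi : Measure.pi (fun _ : Fin n => ν.map T) =
      (Measure.pi fun _ : Fin n => ν).map (fun x i => T (x i)) :=
    (Measure.pi_map_pi (μ := fun _ : Fin n => ν) (f := fun _ => T)
      (fun _ => hTm.aemeasurable)).symm
  have hmm : Measurable (fun (x : Fin n → E d) i => T (x i)) :=
    measurable_pi_lambda _ fun i => hTm.comp (measurable_pi_apply i)
  unfold expCost
  rw [hpi, lintegral_map (measurable_Wpp_emp hp _) hmm,
    ← lintegral_const_mul' _ _ ENNReal.ofReal_ne_top]
  refine lintegral_mono fun x => ?_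
  have h1 := Wpp_map_le hK (by linarith) hT (emp x) ν
  rwa [emp_map hTm] at h1

/-- Existence of a Lipschitz left inverse. -/
theorem exists_left {d m : ℕ} {K : ℝ} (hK : 0 < K) {T : E d → E m}
    (hT : ∀ x y, ‖x - y‖ ≤ K * ‖T x - T y‖) :
    ∃ S : E m → E d, Lip ((lipschitzExtensionConstant (E d) : ℝ) * K) S ∧ ∀ x, S (T x) = x := by
  have hinj : Function.Injective T := by
    intro x y hxy
    have h1 := hT x y
    rw [hxy, sub_self, norm_zero, mul_zero] at h1
    exact sub_eq_zero.1 (norm_le_zero_iff.1 h1)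
  have hL : LipschitzOnWith ⟨K, hK.le⟩ (Function.invFun T) (range T) := by
    refine LipschitzOnWith.of_dist_le_mul ?_
    rintro _ ⟨x, rfl⟩ _ ⟨y, rfl⟩
    rw [Function.leftInverse_invFun hinj x, Function.leftInverse_invFun hinj y, dist_eq_norm,
      dist_eq_norm]
    exact hT x y
  obtain ⟨S, hS, hST⟩ := hL.extend_finite_dimension
  refine ⟨S, fun x y => ?_, fun x => ?_⟩
  · have h1 := hS.dist_le_mul x y
    rwa [dist_eq_norm, dist_eq_norm] at h1
  · rw [← hST ⟨x, rfl⟩, Function.leftInverse_invFun hinj x]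

end Pool.Agent.Y284.EWL
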